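import Pool.Agent.KS6_22.HF.CF8

/-!
# MP_6efe58_an: heat smoothing into `CF(G, σ)`, exact form

For every infinite group `G`, every normalized cocycle and every countable set `D` of negative
definite functions (or of quasi-lengths): all members of `D` are unbounded if and only if each of
them smooths some `x ∈ vN(G, σ) \ CF(G, σ)` into `CF(G, σ)` at some time, if and only if there is
one `x ∈ C*_r(G, σ) \ CF(G, σ)` which all of them smooth into `CF(G, σ)` for all `t > 0`, and then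
such `x` are dense in `C*_r(G, σ)`.

The Hilbert space `ℓ²(G)` with its basis `(δ_g)` is represented by a Hilbert space `H` with a
Hilbert basis `b` indexed by `G`.
-/

namespace Pool.Agent.Results.MP_6efe58_an.CountableFamilies

open scoped InnerProductSpace ComplexConjugate
open Pool.Agent.KS6_22

variable {G : Type*} [Group G] {H : Type*} [NormedAddCommGroup H] [InnerProductSpace ℂ H]

/-- `σ` is a normalized `𝕋`-valued 2-cocycle -/
def IsCocycle (σ : G → G → Circle) : Prop :=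
  (∀ g h k, σ g h * σ (g * h) k = σ h k * σ g (h * k)) ∧ ∀ g, σ g 1 = 1 ∧ σ 1 g = 1

/-- `Λ` is the left regular `σ`-projective representation on `H = ℓ²(G)` with basis `b = (δ_g)`:
`Λ(g) δ_h = σ(g, h) δ_{gh}` -/
def IsRegular (b : HilbertBasis G ℂ H) (σ : G → G → Circle) (Λ : G → H →L[ℂ] H) : Prop :=
  ∀ g h, Λ g (b h) = (σ g h : ℂ) • b (g * h)

/-- the Fourier coefficient `x̂(g) = ⟨δ_g, x δ_e⟩` -/
noncomputable def coeff (b : HilbertBasis G ℂ H) (x : H →L[ℂ] H) (g : G) : ℂ := ⟪b g, x (b 1)⟫_ℂ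

/-- the reduced twisted group C*-algebra: the norm closure of the span of the `Λ(g)` -/
def CstarR (Λ : G → H →L[ℂ] H) : Set (H →L[ℂ] H) :=
  closure (Submodule.span ℂ (Set.range Λ))

/-- the twisted group von Neumann algebra: the closure of the span of the `Λ(g)` in the weak
operator topology -/
def vN (Λ : G → H →L[ℂ] H) : Set (H →L[ℂ] H) :=
  {x | ∀ (P : Finset (H × H)) (ε : ℝ), 0 < ε →
    ∃ a ∈ Submodule.span ℂ (Set.range Λ), ∀ p ∈ P, ‖⟪p.1, (x - a) p.2⟫_ℂ‖ < ε}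

/-- the elements of `C*_r(G, σ)` with operator-norm unconditionally convergent Fourier series -/
def CF (b : HilbertBasis G ℂ H) (Λ : G → H →L[ℂ] H) : Set (H →L[ℂ] H) :=
  {x | x ∈ CstarR Λ ∧ Summable fun g => coeff b x g • Λ g}

/-- `ND₀⁺(G)`: negative definite functions `d : G → [0, ∞)` with `d e = 0` -/
def ND0plus (d : G → ℝ) : Prop :=
  (∀ g, 0 ≤ d g) ∧ d 1 = 0 ∧ (∀ g, d g⁻¹ = d g) ∧
  ∀ (n : ℕ) (g : Fin n → G) (b : Fin n → ℂ), ∑ i, b i = 0 →
    (∑ i, ∑ j, conj (b i) * b j * (d ((g i)⁻¹ * g j) : ℂ)).re ≤ 0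

/-- `d` is bounded -/
def Bdd (d : G → ℝ) : Prop := ∃ C : ℝ, ∀ g, d g ≤ C

/-- `d : G → [0, ∞)` is a quasi-length: `d(g) ≤ C (d(g h) + d(h))` for one `C` and all `g`, `h` -/
def QuasiLength (d : G → ℝ) : Prop :=
  (∀ g, 0 ≤ d g) ∧ ∃ C : ℝ, ∀ g h, d g ≤ C * (d (g * h) + d h)

/-- property (T), in the form used in the problem -/
def PropertyT (G : Type*) [Group G] : Prop := ∀ d : G → ℝ, ND0plus d → Bdd d

/-- the heat multiplier `e^{-t d}` -/
noncomputable def heat (t : ℝ) (d : G → ℝ) (g : G) : ℂ := (Real.exp (-t * d g) : ℂ)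

/-- the map `M` is linear on the set `V` of operators (meant to be a linear space) -/
def LinearOn (V : Set (H →L[ℂ] H)) (M : (H →L[ℂ] H) → (H →L[ℂ] H)) : Prop :=
  ∀ x ∈ V, ∀ y ∈ V, ∀ c : ℂ, M (c • x + y) = c • M x + M y

/-- the map `M` is bounded on the set `V` of operators -/
def BoundedOn (V : Set (H →L[ℂ] H)) (M : (H →L[ℂ] H) → (H →L[ℂ] H)) : Prop :=
  ∃ C : ℝ, ∀ x ∈ V, ‖M x‖ ≤ C * ‖x‖

/-- weak form: there is an element of `CF(G, σ)` with the Fourier coefficients `φ(g) x̂(g)`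
(for `φ = e^{-t d}` it is the image of `x ∈ vN(G, σ)` under the heat operator) -/
def CoeffSends (b : HilbertBasis G ℂ H) (Λ : G → H →L[ℂ] H) (φ : G → ℂ) (x : H →L[ℂ] H) : Prop :=
  ∃ y ∈ CF b Λ, ∀ g, coeff b y g = φ g * coeff b x g

/-- strong form: `x ∈ C*_r(G, σ) \ CF(G, σ)`, but `∑ |φ(g) x̂(g)| < ∞`, there is an element of
`CF(G, σ)` with the Fourier coefficients `φ(g) x̂(g)`, and every map `M` on operators that is
linear and bounded on `C*_r(G, σ)` and satisfies `M (Λ(g)) = φ(g) Λ(g)` for all `g` (such as the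
heat operator for `φ = e^{-t d}`) maps `x` into `CF(G, σ)`. -/
def Sends (b : HilbertBasis G ℂ H) (Λ : G → H →L[ℂ] H) (φ : G → ℂ) (x : H →L[ℂ] H) : Prop :=
  x ∈ CstarR Λ ∧ x ∉ CF b Λ ∧ (Summable fun g => ‖φ g * coeff b x g‖) ∧ CoeffSends b Λ φ x ∧
  ∀ M : (H →L[ℂ] H) → (H →L[ℂ] H), LinearOn (CstarR Λ) M → BoundedOn (CstarR Λ) M →
    (∀ g, M (Λ g) = φ g • Λ g) → M x ∈ CF b Λ

/-- finitely many of the functions are simultaneously small on some left translate of every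
finite set -/
def SmallOnTranslates (φ : ℕ → G → ℂ) : Prop :=
  ∀ (n : ℕ) (T : Finset G) (ε : ℝ), 0 < ε → ∃ h : G, ∀ k ≤ n, ∀ g ∈ T, ‖φ k (h * g)‖ < ε

/-- the function is bounded away from zero outside a finite set -/
def BoundedBelow (φ : G → ℂ) : Prop := ∃ c : ℝ, 0 < c ∧ ∃ A : Finset G, ∀ g ∉ A, c ≤ ‖φ g‖

lemma hat_eq_coeff (b : HilbertBasis G ℂ H) (σ : G → G → Circle) (hσ : IsCocycle σ)
    (Λ : G → H →L[ℂ] H) (hΛ : IsRegular b σ Λ) (x : H →L[ℂ] H) (g : G) :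
    HF.hat Λ (b 1) x g = coeff b x g := by
  unfold HF.hat coeff
  rw [hΛ, (hσ.2 g).1, mul_one, Circle.coe_one, one_smul]

lemma quasi {d : G → ℝ} (hd : ND0plus d) : QuasiLength d := by
  refine ⟨hd.1, 2, fun h g => ?_⟩
  obtain ⟨h0, h1, h2, h3⟩ := hd
  have h4 := h3 3 ![(h * g)⁻¹, g⁻¹, 1] ![1, 1, -2] (by
    rw [Fin.sum_univ_three]
    simp
    norm_num)
  simp only [Fin.sum_univ_three] at h4
  simp only [Matrix.cons_val_zero, Matrix.cons_val_one, Matrix.cons_val_two, Matrix.head_cons,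
    Matrix.tail_cons] at h4
  have e1 : ((h * g)⁻¹)⁻¹ * (h * g)⁻¹ = 1 := by group
  have e2 : ((h * g)⁻¹)⁻¹ * g⁻¹ = h := by group
  have e3 : (g⁻¹)⁻¹ * (h * g)⁻¹ = h⁻¹ := by group
  have e4 : (g⁻¹)⁻¹ * g⁻¹ = 1 := by group
  have e5 : ((h * g)⁻¹)⁻¹ * 1 = h * g := by group
  have e6 : (g⁻¹)⁻¹ * 1 = g := by group
  have e7 : (1 : G)⁻¹ * (h * g)⁻¹ = (h * g)⁻¹ := by group
  have e8 : (1 : G)⁻¹ * g⁻¹ = g⁻¹ := by group
  have e9 : (1 : G)⁻¹ * 1 = 1 := by group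
  rw [e1, e2, e3, e4, e5, e6, e7, e8, e9, h1, h2, h2, h2] at h4
  simp at h4
  linarith

section vN

variable (b : HilbertBasis G ℂ H) (σ : G → G → Circle) (hσ : IsCocycle σ)
  (Λ : G → H →L[ℂ] H) (hΛ : IsRegular b σ Λ)

include hΛ hσ

lemma span_entry {a : H →L[ℂ] H} (ha : a ∈ Submodule.span ℂ (Set.range Λ)) (h k : G) :
    ⟪b k, a (b h)⟫_ℂ = (σ (k * h⁻¹) h : ℂ) * ⟪b (k * h⁻¹), a (b 1)⟫_ℂ := by
  classical
  induction ha using Submodule.span_induction with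
  | mem a h' =>
    obtain ⟨g, rfl⟩ := h'
    rw [hΛ, hΛ, (hσ.2 g).1, Circle.coe_one, one_smul, mul_one, inner_smul_right,
      orthonormal_iff_ite.1 b.orthonormal, orthonormal_iff_ite.1 b.orthonormal]
    by_cases hk : k = g * h
    · subst hk
      simp
    · rw [if_neg hk, if_neg (fun h1 => hk (by rw [← h1]; group)), mul_zero, mul_zero]
  | zero => simp
  | add x y _ _ hx hy =>
    rw [add_apply, add_apply, inner_add_right, inner_add_right, hx, hy, mul_add]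
  | smul c x _ hx =>
    rw [smul_apply, smul_apply, inner_smul_right, inner_smul_right, hx]
    ring

lemma vN_entry {x : H →L[ℂ] H} (hx : x ∈ vN Λ) (h k : G) :
    ⟪b k, x (b h)⟫_ℂ = (σ (k * h⁻¹) h : ℂ) * coeff b x (k * h⁻¹) := by
  classical
  by_contra hne
  have hpos : 0 < ‖⟪b k, x (b h)⟫_ℂ - (σ (k * h⁻¹) h : ℂ) * coeff b x (k * h⁻¹)‖ :=
    norm_pos_iff.2 (sub_ne_zero.2 hne)
  set D := ‖⟪b k, x (b h)⟫_ℂ - (σ (k * h⁻¹) h : ℂ) * coeff b x (k * h⁻¹)‖ with hD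
  obtain ⟨a, ha, hP⟩ := hx {(b k, b h), (b (k * h⁻¹), b 1)} (D / 2) (half_pos hpos)
  have h1 := hP (b k, b h) (by simp)
  have h2 := hP (b (k * h⁻¹), b 1) (by simp)
  simp only [sub_apply, inner_sub_right] at h1 h2
  have h3 := span_entry b σ hσ Λ hΛ ha h k
  have h4 : ⟪b k, x (b h)⟫_ℂ - (σ (k * h⁻¹) h : ℂ) * coeff b x (k * h⁻¹) =
      (⟪b k, x (b h)⟫_ℂ - ⟪b k, a (b h)⟫_ℂ) -
      (σ (k * h⁻¹) h : ℂ) * (⟪b (k * h⁻¹), x (b 1)⟫_ℂ - ⟪b (k * h⁻¹), a (b 1)⟫_ℂ) := by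
    rw [h3]
    unfold coeff
    ring
  have h5 : D < D := by
    calc D = ‖(⟪b k, x (b h)⟫_ℂ - ⟪b k, a (b h)⟫_ℂ) -
      (σ (k * h⁻¹) h : ℂ) * (⟪b (k * h⁻¹), x (b 1)⟫_ℂ - ⟪b (k * h⁻¹), a (b 1)⟫_ℂ)‖ := by
          rw [hD, h4]
      _ ≤ ‖⟪b k, x (b h)⟫_ℂ - ⟪b k, a (b h)⟫_ℂ‖ +
        ‖(σ (k * h⁻¹) h : ℂ) * (⟪b (k * h⁻¹), x (b 1)⟫_ℂ - ⟪b (k * h⁻¹), a (b 1)⟫_ℂ)‖ :=
          norm_sub_le _ _
      _ < D / 2 + D / 2 := by
          rw [norm_mul, Circle.norm_coe, one_mul]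
          exact add_lt_add h1 h2
      _ = D := by ring
  exact lt_irrefl _ h5

lemma vN_inj {x z : H →L[ℂ] H} (hx : x ∈ vN Λ) (hz : z ∈ vN Λ)
    (h : ∀ g, coeff b x g = coeff b z g) : x = z := by
  refine HF.ext_basis b fun g => ?_
  apply b.repr.injective
  apply lp.ext
  funext k
  rw [b.repr_apply_apply, b.repr_apply_apply, vN_entry b σ hσ Λ hΛ hx, vN_entry b σ hσ Λ hΛ hz, h]

omit hΛ hσ in
lemma cstar_sub_vN {x : H →L[ℂ] H} (hx : x ∈ CstarR Λ) : x ∈ vN Λ := by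
  classical
  intro P ε hε
  set K : ℝ := ∑ p ∈ P, ‖p.1‖ * ‖p.2‖ with hK
  have hK0 : 0 ≤ K := Finset.sum_nonneg fun p _ => by positivity
  obtain ⟨a, ha, hxa⟩ := Metric.mem_closure_iff.1 hx (ε / (K + 1)) (by positivity)
  refine ⟨a, ha, fun p hp => ?_⟩
  have h1 : ‖p.1‖ * ‖p.2‖ ≤ K := Finset.single_le_sum (f := fun p : H × H => ‖p.1‖ * ‖p.2‖)
    (fun p _ => by positivity) hp
  rw [dist_eq_norm] at hxa
  calc ‖⟪p.1, (x - a) p.2⟫_ℂ‖ ≤ ‖p.1‖ * ‖(x - a) p.2‖ := norm_inner_le_norm _ _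
    _ ≤ ‖p.1‖ * (‖x - a‖ * ‖p.2‖) :=
        mul_le_mul_of_nonneg_left ((x - a).le_opNorm _) (norm_nonneg _)
    _ = ‖x - a‖ * (‖p.1‖ * ‖p.2‖) := by ring
    _ ≤ ‖x - a‖ * K := mul_le_mul_of_nonneg_left h1 (norm_nonneg _)
    _ ≤ ε / (K + 1) * K := mul_le_mul_of_nonneg_right hxa.le hK0
    _ < ε := by
        rw [div_mul_eq_mul_div, div_lt_iff₀ (by linarith)]
        nlinarith

/-- no smoothing with multipliers that are bounded below off a finite set -/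
lemma converse [CompleteSpace H] {φ : G → ℂ} (hφ : BoundedBelow φ) {x : H →L[ℂ] H}
    (hx : x ∈ vN Λ) (hs : CoeffSends b Λ φ x) : x ∈ CF b Λ := by
  classical
  have S := HF.sys_of_basis b σ hσ.1 hσ.2 Λ hΛ
  obtain ⟨c, hc, A, hA⟩ := hφ
  obtain ⟨y, ⟨hy1, hy2⟩, hy3⟩ := hs
  have h1 : Summable fun g => (if g ∈ A then (0 : ℂ) else (φ g)⁻¹) • (coeff b y g • Λ g) := by
    refine HF.summable_smul_bdd hy2 _ c⁻¹ fun g => ?_
    split_ifs with hg
    · rw [norm_zero]; positivity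
    · rw [norm_inv]
      exact inv_anti₀ hc (hA g hg)
  have h2 : Summable fun g => (if g ∈ A then coeff b x g else 0) • Λ g :=
    summable_of_ne_finset_zero (s := A) (fun g hg => by rw [if_neg hg, zero_smul])
  have h3 : Summable fun g => coeff b x g • Λ g := by
    refine (h1.add h2).congr fun g => ?_
    by_cases hg : g ∈ A
    · rw [if_pos hg, if_pos hg, zero_smul, zero_add]
    · have h4 : φ g ≠ 0 := by
        intro h5
        have := hA g hg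
        rw [h5, norm_zero] at this
        linarith
      rw [if_neg hg, if_neg hg, zero_smul, add_zero, hy3, smul_smul, ← mul_assoc,
        inv_mul_cancel₀ h4, one_mul]
  have h4 : (∑' g, coeff b x g • Λ g) ∈ CstarR Λ := by
    apply mem_closure_of_tendsto h3.hasSum
    filter_upwards with s
    exact S.sum_mem s _
  have h5 : ∀ g, coeff b (∑' g, coeff b x g • Λ g) g = coeff b x g := by
    intro g
    rw [← hat_eq_coeff b σ hσ Λ hΛ (∑' g, coeff b x g • Λ g) g]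
    have e1 : HasSum (fun k => HF.hat Λ (b 1) (coeff b x k • Λ k) g)
        (HF.hat Λ (b 1) (∑' g, coeff b x g • Λ g) g) := h3.hasSum.mapL (HF.Sys.hatL Λ (b 1) g)
    have e2 : HasSum (fun k => HF.hat Λ (b 1) (coeff b x k • Λ k) g)
        (HF.hat Λ (b 1) (coeff b x g • Λ g) g) := by
      apply hasSum_single
      intro k hk
      rw [HF.Sys.hat_smul]
      have h5 : HF.hat Λ (b 1) (Λ k) g = 0 := S.orthonormal.2 (Ne.symm hk)
      rw [h5, mul_zero]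
    rw [e1.unique e2, HF.Sys.hat_smul]
    have h6 : HF.hat Λ (b 1) (Λ g) g = 1 := by
      have := S.orthonormal.1 g
      unfold HF.hat
      simp only at this
      rw [inner_self_eq_norm_sq_to_K, this]
      simp
    rw [h6, mul_one]
  have h6 := vN_inj b σ hσ Λ hΛ (cstar_sub_vN Λ h4) hx h5
  exact ⟨h6 ▸ h4, h3⟩

end vN

lemma sends_of_summable [CompleteSpace H] (b : HilbertBasis G ℂ H) (σ : G → G → Circle)
    (hσ : IsCocycle σ) (Λ : G → H →L[ℂ] H) (hΛ : IsRegular b σ Λ) (φ : G → ℂ) (x : H →L[ℂ] H)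
    (hx1 : x ∈ CstarR Λ) (hx2 : x ∉ CF b Λ) (hx3 : Summable fun g => ‖φ g * coeff b x g‖) :
    Sends b Λ φ x := by
  have S := HF.sys_of_basis b σ hσ.1 hσ.2 Λ hΛ
  have hz : (0 : H →L[ℂ] H) ∈ CstarR Λ := subset_closure (Submodule.zero_mem _)
  refine ⟨hx1, hx2, hx3, ?_, fun M hM hMb hMg => ?_⟩
  · obtain ⟨y, hy1, hy2, hy3⟩ := S.exists_of_summable hx3
    refine ⟨y, ⟨hy1, ?_⟩, fun g => ?_⟩
    · simp only [← hat_eq_coeff b σ hσ Λ hΛ y]
      exact hy3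
    · rw [← hat_eq_coeff b σ hσ Λ hΛ y, hy2]
  · have h0 : M 0 = 0 := by
      have := hM 0 hz 0 hz 1
      rw [one_smul, one_smul, add_zero] at this
      exact left_eq_add.1 this
    obtain ⟨C, hC⟩ := hMb
    set M' : (HF.Alg Λ).topologicalClosure →L[ℂ] (H →L[ℂ] H) :=
      LinearMap.mkContinuous
        { toFun := fun a => M a
          map_add' := fun a c => by
            have := hM a a.2 c c.2 1
            rwa [one_smul, one_smul] at this
          map_smul' := fun c a => by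
            have := hM a a.2 0 hz c
            rwa [add_zero, h0, add_zero] at this } C
        (fun a => hC a a.2) with hM'
    have h1 : ∀ g, ∀ hg : Λ g ∈ (HF.Alg Λ).topologicalClosure,
        M' ⟨Λ g, hg⟩ = φ g • Λ g := fun g hg => hMg g
    obtain ⟨h2, h3⟩ := S.heat_closure φ M' h1 ⟨x, hx1⟩
    have h4 : M' ⟨x, hx1⟩ = M x := rfl
    rw [h4] at h2 h3
    refine ⟨h2, ?_⟩
    simp only [← hat_eq_coeff b σ hσ Λ hΛ (M x), h3, hat_eq_coeff b σ hσ Λ hΛ x]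
    refine Summable.of_norm_bounded hx3 fun g => ?_
    rw [norm_smul]
    calc _ ≤ ‖φ g * coeff b x g‖ * 1 :=
          mul_le_mul_of_nonneg_left (S.opNorm_u_le g) (norm_nonneg _)
      _ = _ := mul_one _

lemma dense_of_small [Infinite G] [CompleteSpace H] (b : HilbertBasis G ℂ H)
    (σ : G → G → Circle) (hσ : IsCocycle σ) (Λ : G → H →L[ℂ] H) (hΛ : IsRegular b σ Λ)
    (φ : ℕ → G → ℂ) (hφ : SmallOnTranslates φ) :
    CstarR Λ ⊆ closure {x | x ∈ CstarR Λ ∧ x ∉ CF b Λ ∧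
      ∀ k, Summable fun g => ‖φ k g‖ * ‖coeff b x g‖} := by
  have S := HF.sys_of_basis b σ hσ.1 hσ.2 Λ hΛ
  intro z hz
  rw [Metric.mem_closure_iff]
  intro ε hε
  obtain ⟨x, hx1, hx2, hx3, hx4⟩ := S.main_dense (φ := φ) hφ z hz ε hε
  simp only [hat_eq_coeff b σ hσ Λ hΛ] at hx3 hx4
  refine ⟨x, ⟨hx1, fun h => hx3 h.2, hx4⟩, ?_⟩
  rw [dist_comm, dist_eq_norm]
  exact hx2

lemma exists_dominating {D : Set (G → ℝ)} (hD : D.Countable) (hq : ∀ d ∈ D, QuasiLength d)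
    (hub : ∀ d ∈ D, ¬ Bdd d) : ∃ φ : ℕ → G → ℂ, SmallOnTranslates φ ∧
      ∀ d ∈ D, ∀ t : ℝ, 0 < t → ∃ k, ∀ g, Real.exp (-t * d g) ≤ ‖φ k g‖ := by
  rcases D.eq_empty_or_nonempty with rfl | hne
  · exact ⟨fun _ _ => 0, fun n T ε hε => ⟨1, fun k _ g _ => by rwa [norm_zero]⟩,
      fun d hd => absurd hd (Set.notMem_empty d)⟩
  · obtain ⟨e, he⟩ := hD.exists_eq_range hne
    have hq' : ∀ k, HF.QuasiLength (e k) := fun k => hq _ (he ▸ Set.mem_range_self k)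
    refine ⟨HF.domin e, HF.thick_domin e hq' fun k => hub _ (he ▸ Set.mem_range_self k), ?_⟩
    intro d hd t ht
    rw [he] at hd
    obtain ⟨j, rfl⟩ := hd
    exact HF.le_domin e hq' j t ht

/-- **Heat smoothing into `CF(G, σ)`.** Let `G` be an infinite group, `σ` a normalized 2-cocycle.
(1) For every sequence of functions `φ_k` which are (finitely many at a time) simultaneously small
on left translates of all finite sets, the `x ∈ C*_r(G, σ) \ CF(G, σ)` which all the multipliers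
`φ_k` send into `CF(G, σ)` are dense in `C*_r(G, σ)`. (2) A function which is bounded below off a
finite set sends no `x ∈ vN(G, σ) \ CF(G, σ)` into `CF(G, σ)`. (3) For countable sets `D` of
quasi-lengths, in particular of functions in `ND₀⁺(G)`, four conditions are equivalent: all
members of `D` are unbounded; each of them smooths some `x ∈ vN(G, σ) \ CF(G, σ)` into `CF(G, σ)`
at some time; one `x ∈ C*_r(G, σ) \ CF(G, σ)` is smoothed by all of them for all `t > 0`; such `x`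
are dense in `C*_r(G, σ)`. (4) `G` does not have property (T) if and only if smoothing into
`CF(G, σ)` occurs for some function in `ND₀⁺(G)`. -/
theorem result {G : Type*} [Group G] [Infinite G] {H : Type*} [NormedAddCommGroup H]
    [InnerProductSpace ℂ H] [CompleteSpace H] (b : HilbertBasis G ℂ H) (σ : G → G → Circle)
    (hσ : IsCocycle σ) :
    (∃ Λ : G → H →L[ℂ] H, IsRegular b σ Λ) ∧
    ∀ Λ : G → H →L[ℂ] H, IsRegular b σ Λ →
      (∀ φ : ℕ → G → ℂ, SmallOnTranslates φ →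
        CstarR Λ ⊆ closure {x | ∀ k, Sends b Λ (φ k) x}) ∧
      (∀ φ : G → ℂ, BoundedBelow φ → ∀ x ∈ vN Λ, CoeffSends b Λ φ x → x ∈ CF b Λ) ∧
      (∀ d : G → ℝ, ND0plus d → QuasiLength d) ∧
      (∀ D : Set (G → ℝ), D.Countable → (∀ d ∈ D, QuasiLength d) → List.TFAE [
        ∀ d ∈ D, ¬ Bdd d,
        ∀ d ∈ D, ∃ t : ℝ, 0 < t ∧ ∃ x ∈ vN Λ, x ∉ CF b Λ ∧ CoeffSends b Λ (heat t d) x,
        ∃ x ∈ CstarR Λ, x ∉ CF b Λ ∧ ∀ d ∈ D, ∀ t : ℝ, 0 < t → Sends b Λ (heat t d) x,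
        CstarR Λ ⊆ closure {x | x ∈ CstarR Λ ∧ x ∉ CF b Λ ∧
          ∀ d ∈ D, ∀ t : ℝ, 0 < t → Sends b Λ (heat t d) x}]) ∧
      (¬ PropertyT G ↔ ∃ d : G → ℝ, ND0plus d ∧ ∃ t : ℝ, 0 < t ∧
        ∃ x ∈ vN Λ, x ∉ CF b Λ ∧ CoeffSends b Λ (heat t d) x) := by
  refine ⟨⟨HF.LamB b σ, HF.LamB_basis b σ⟩, fun Λ hΛ => ?_⟩
  have hz : (0 : H →L[ℂ] H) ∈ CstarR Λ := subset_closure (Submodule.zero_mem _)
  have hconv := fun (φ : G → ℂ) (hφ : BoundedBelow φ) (x : H →L[ℂ] H) (hx : x ∈ vN Λ)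
    (hs : CoeffSends b Λ φ x) => converse b σ hσ Λ hΛ hφ hx hs
  have hbb : ∀ (d : G → ℝ) (t : ℝ), 0 < t → Bdd d → BoundedBelow (heat t d) := by
    rintro d t ht ⟨C, hC⟩
    refine ⟨Real.exp (-t * C), Real.exp_pos _, ∅, fun g _ => ?_⟩
    rw [heat, Complex.norm_real, Real.norm_of_nonneg (Real.exp_pos _).le]
    exact Real.exp_le_exp.2 (by nlinarith [hC g])
  have hTFAE : ∀ D : Set (G → ℝ), D.Countable → (∀ d ∈ D, QuasiLength d) → List.TFAE [
        ∀ d ∈ D, ¬ Bdd d,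
        ∀ d ∈ D, ∃ t : ℝ, 0 < t ∧ ∃ x ∈ vN Λ, x ∉ CF b Λ ∧ CoeffSends b Λ (heat t d) x,
        ∃ x ∈ CstarR Λ, x ∉ CF b Λ ∧ ∀ d ∈ D, ∀ t : ℝ, 0 < t → Sends b Λ (heat t d) x,
        CstarR Λ ⊆ closure {x | x ∈ CstarR Λ ∧ x ∉ CF b Λ ∧
          ∀ d ∈ D, ∀ t : ℝ, 0 < t → Sends b Λ (heat t d) x}] := by
    intro D hD hq
    tfae_have 1 → 4 := by
      intro hub
      obtain ⟨φ, hφ, hdom⟩ := exists_dominating hD hq hub
      refine (dense_of_small b σ hσ Λ hΛ φ hφ).trans (closure_mono ?_)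
      rintro x ⟨hx1, hx2, hx3⟩
      refine ⟨hx1, hx2, fun d hd t ht => ?_⟩
      obtain ⟨k, hk⟩ := hdom d hd t ht
      refine sends_of_summable b σ hσ Λ hΛ _ x hx1 hx2 ?_
      refine Summable.of_nonneg_of_le (fun g => norm_nonneg _) (fun g => ?_) (hx3 k)
      rw [norm_mul, heat, Complex.norm_real, Real.norm_of_nonneg (Real.exp_pos _).le]
      exact mul_le_mul_of_nonneg_right (hk g) (norm_nonneg _)
    tfae_have 4 → 3 := by
      intro h4
      obtain ⟨x, hx, -⟩ := Metric.mem_closure_iff.1 (h4 hz) 1 one_pos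
      exact ⟨x, hx.1, hx.2.1, hx.2.2⟩
    tfae_have 3 → 2 := by
      rintro ⟨x, hx1, hx2, hx3⟩ d hd
      exact ⟨1, one_pos, x, cstar_sub_vN Λ hx1, hx2, (hx3 d hd 1 one_pos).2.2.2.1⟩
    tfae_have 2 → 1 := by
      intro h2 d hd hb
      obtain ⟨t, ht, x, hx1, hx2, hx3⟩ := h2 d hd
      exact hx2 (hconv _ (hbb d t ht hb) x hx1 hx3)
    tfae_finish
  refine ⟨fun φ hφ => ?_, hconv, fun d hd => quasi hd, hTFAE, ?_⟩
  · refine (dense_of_small b σ hσ Λ hΛ φ hφ).trans (closure_mono ?_)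
    rintro x ⟨hx1, hx2, hx3⟩ k
    refine sends_of_summable b σ hσ Λ hΛ _ x hx1 hx2 ((hx3 k).congr fun g => ?_)
    rw [norm_mul]
  · constructor
    · intro hT
      unfold PropertyT at hT
      push Not at hT
      obtain ⟨d, hd, hb⟩ := hT
      have h1 := (hTFAE {d} (Set.countable_singleton d) (by
        rintro _ rfl
        exact quasi hd)).out 0 1
      exact ⟨d, hd, h1.1 (by rintro _ rfl; exact hb) d rfl⟩
    · rintro ⟨d, hd, t, ht, x, hx1, hx2, hx3⟩ hT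
      exact hx2 (hconv _ (hbb d t ht (hT d hd)) x hx1 hx3)

end Pool.Agent.Results.MP_6efe58_an.CountableFamilies
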